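import Mathlib
import Pool.Agent.P.MP_f4e0a3_ag.Defs
import Pool.Agent.P.MP_f4e0a3_ag.HP.Defs
import Pool.Agent.P.MP_f4e0a3_ag.HP.Main

open Pool.Agent.P.MP_f4e0a3_ag Pool.Agent.P.MP_f4e0a3_ag.HP

namespace Pool.Agent.Results.MP_f4e0a3_ag.HilbertPoints

theorem result (n d m : ℕ) (hn : 2 ≤ n) (hd : 3 ≤ d) (h1 : d - 1 ≤ m) (h2 : m < n * (d - 2)) :
    ∃ k, LocImm 1 (PX n d) k m fun L => hilb m (jac L) :=
  mainX n d m hn hd h1 h2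

end Pool.Agent.Results.MP_f4e0a3_ag.HilbertPoints
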