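import Mathlib
import Pool.Agent.P.MP_f4e0a3_ag.Defs
import Pool.Agent.P.MP_f4e0a3_ag.HP.Defs
import Pool.Agent.P.MP_f4e0a3_ag.HP.Main

open Pool.Agent.P.MP_f4e0a3_ag Pool.Agent.P.MP_f4e0a3_ag.HP

namespace Pool.Agent.Results.MP_f4e0a3_ag.HilbertPointsCI

theorem result (n e m : ℕ) (hn : 2 ≤ n) (he : 2 ≤ e) (h1 : e ≤ m) (h2 : m < n * (e - 1)) :
    ∃ k, LocImm n (Z n e) k m (hilb m) :=
  mainZ n e m (by omega) he h1 h2

end Pool.Agent.Results.MP_f4e0a3_ag.HilbertPointsCI
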