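import Mathlib
import Pool.Agent.P.MP_f4e0a3_ag.Defs
import Pool.Agent.P.MP_f4e0a3_ag.Cl.Defs
import Pool.Agent.P.MP_f4e0a3_ag.Cl.Reg
import Pool.Agent.P.MP_f4e0a3_ag.Cl.Glob
import Pool.Agent.P.MP_f4e0a3_ag.Cl.Step

open MvPolynomial Pool.Agent.P.MP_f4e0a3_ag

namespace Pool.Agent.Results.MP_f4e0a3_ag.NormalClosure

theorem result (n d : ℕ) (hn : 2 ≤ n) (hd : 3 ≤ d) :
    ∃ γ : PX n d → Z n (d - 1),
      (∀ (L : PX n d) (f : MvPolynomial (Fin n) ℂ), L.1 = Submodule.span ℂ {f} →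
        (γ L).1 = Submodule.span ℂ (Set.range fun i => pderiv i f)) ∧
      NormalModulo {φ : Z n (d - 1) → ℂ | IsRegular n (Z n (d - 1)) φ}
        {φ | ∀ L, φ (γ L) = 0} := by
  obtain ⟨e, rfl⟩ : ∃ e, d = e + 1 := ⟨d - 1, by omega⟩
  have : Fact (2 ≤ e) := ⟨by omega⟩
  have : Nonempty (Fin n) := ⟨⟨0, by omega⟩⟩
  refine ⟨gradMap n e, ?_, normal_closure n e fun M => covSt_of_stepSt M (stepSt M)⟩
  rintro ⟨L, hL⟩ f rfl
  exact iSup_map_span f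

end Pool.Agent.Results.MP_f4e0a3_ag.NormalClosure
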